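import Pool.Agent.Helper66_D2.Tool

/-! Part D2, module DMS: the dimensions of the spaces `i' M_s`. -/

open scoped BigOperators

set_option autoImplicit false

noncomputable section

namespace Pool.Agent.PP.CD2.H34

open Pool.Agent.PP Pool.Agent.Helper51_AWC Pool.Agent.Helper79_WRA Pool.Agent.PP.H20
  Pool.Agent.PP.CD2.H66

variable {F : Type} [Field F] {G : Type} [Group G] [Finite G]

/-- the spaces -/
def Kd (b w i i' : G → F) (s : ℕ) : Submodule F (G → F) where
  carrier := {x | mulF i' x = x ∧ MSw b w i s x}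
  zero_mem' := by
    refine ⟨mulF_zero _, mulF_zero _, zero_mulF _, ?_⟩
    apply toMA_injective
    rw [toMA_pwR, toMA_zero, zero_mul]
  add_mem' := by
    rintro x y ⟨h1, h2, h3, h4⟩ ⟨k1, k2, k3, k4⟩
    refine ⟨by rw [mulF_add, h1, k1], by rw [mulF_add, h2, k2], by rw [add_mulF, h3, k3], ?_⟩
    apply toMA_injective
    rw [toMA_pwR, toMA_add, add_mul, ← toMA_pwR, ← toMA_pwR, h4, k4, toMA_zero, add_zero]
  smul_mem' := by
    rintro c x ⟨h1, h2, h3, h4⟩
    refine ⟨by rw [mulF_smul, h1], by rw [mulF_smul, h2], by rw [smul_mulF, h3], ?_⟩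
    apply toMA_injective
    rw [toMA_pwR, toMA_smul, smul_mul_assoc, ← toMA_pwR, h4, toMA_zero, smul_zero]

theorem mem_Kd {b w i i' : G → F} {s : ℕ} {x : G → F} : x ∈ Kd b w i i' s ↔
    mulF i' x = x ∧ mulF b x = x ∧ mulF x i = x ∧ pwR w s x = 0 := Iff.rfl

/-- right multiplication with a power of `w` -/
def Rw (w : G → F) (s : ℕ) : (G → F) →ₗ[F] (G → F) where
  toFun x := pwR w s x
  map_add' x y := by
    apply toMA_injective
    rw [toMA_pwR, toMA_add, add_mul, toMA_add, toMA_pwR, toMA_pwR]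
  map_smul' c x := by
    apply toMA_injective
    rw [toMA_pwR, toMA_smul, smul_mul_assoc, RingHom.id_apply, toMA_smul, toMA_pwR]

theorem pwR_add (w a : G → F) (s t : ℕ) : pwR w (s + t) a = pwR w s (pwR w t a) := by
  apply toMA_injective
  rw [toMA_pwR, toMA_pwR, toMA_pwR, mul_assoc, ← pow_add, add_comm]

theorem mulF_pwR (a w x : G → F) (s : ℕ) : mulF a (pwR w s x) = pwR w s (mulF a x) := by
  apply toMA_injective
  rw [toMA_mulF, toMA_pwR, toMA_pwR, toMA_mulF, mul_assoc]

/-- DMS -/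
theorem dms (hanr : AnrStmt) : DmsStmt := by
  intro F _ G _ _ C b₁ w i q hU b i' hb hbi hii
  have hwi : mulF w i = mulF i w := cm_comm hU.cw hU.si
  have hpi : ∀ (s : ℕ) (x : G → F), mulF (pwR w s x) i = pwR w s (mulF x i) := by
    intro s x
    have h1 : Commute (toMA w) (toMA i) := by
      show toMA w * toMA i = toMA i * toMA w
      rw [← toMA_mulF, ← toMA_mulF, hwi]
    apply toMA_injective
    rw [toMA_mulF, toMA_pwR, toMA_pwR, toMA_mulF, mul_assoc, mul_assoc, (h1.pow_left s).eq]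
  have hq0 : ∀ x : G → F, mulF x i = x → pwR w q x = 0 := by
    intro x hx
    have h1 := congrArg toMA hU.nil
    rw [toMA_pwF, toMA_zero] at h1
    have h2 : toMA w ^ q * toMA i = 0 := by
      have h3 : toMA i = toMA b₁ * toMA i := by rw [← toMA_mulF, hU.bi]
      rw [h3, ← mul_assoc, h1, zero_mul]
    rw [← hx, ← hpi]
    apply toMA_injective
    rw [toMA_mulF, toMA_pwR, mul_assoc, h2, mul_zero, toMA_zero]
  have hspan : ∀ s, Submodule.span F {x : G → F | mulF i' x = x ∧ MSw b w i s x} =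
      Kd b w i i' s := fun s => Submodule.span_eq (Kd b w i i' s)
  refine ⟨Module.finrank F (Kd b w i i' 1), ?_⟩
  intro s
  rw [hspan]
  induction s with
  | zero =>
    intro _
    have h1 : Kd b w i i' 0 = ⊥ := by
      rw [eq_bot_iff]
      intro x hx
      exact (Submodule.mem_bot F).2 hx.2.2.2
    rw [h1, finrank_bot, zero_mul]
  | succ s ih =>
    intro hs
    have ih := ih (by omega)
    set φ : Kd b w i i' (s + 1) →ₗ[F] (G → F) := (Rw w s).comp (Kd b w i i' (s + 1)).subtype
      with hφ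
    have hφa : ∀ x : Kd b w i i' (s + 1), φ x = pwR w s x.1 := fun x => rfl
    have h1 : LinearMap.range φ = Kd b w i i' 1 := by
      apply le_antisymm
      · rintro _ ⟨x, rfl⟩
        obtain ⟨k1, k2, k3, k4⟩ := x.2
        rw [hφa]
        refine ⟨by rw [mulF_pwR, k1], by rw [mulF_pwR, k2], by rw [hpi, k3], ?_⟩
        rw [← pwR_add, add_comm, k4]
      · rintro y ⟨k1, k2, k3, k4⟩
        obtain ⟨x', hx', hy⟩ := hanr F G C b₁ w i q hU 1 (by omega) y k3 k4
        have e1 : mulF (mulF i' x') i = mulF i' x' := by rw [mulF_assoc, hx']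
        refine ⟨⟨pwR w (q - 1 - s) (mulF i' x'), ?_, ?_, ?_, ?_⟩, ?_⟩
        · rw [mulF_pwR, ← mulF_assoc, hii]
        · rw [mulF_pwR, ← mulF_assoc, hbi]
        · rw [hpi, e1]
        · rw [← pwR_add]
          have e2 : s + 1 + (q - 1 - s) = q := by omega
          rw [e2]
          exact hq0 _ e1
        · rw [hφa]
          show pwR w s (pwR w (q - 1 - s) (mulF i' x')) = y
          rw [← pwR_add]
          have e2 : s + (q - 1 - s) = q - 1 := by omega
          rw [e2, ← mulF_pwR, ← hy, k1]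
    have h2 : (LinearMap.ker φ).map (Kd b w i i' (s + 1)).subtype = Kd b w i i' s := by
      apply le_antisymm
      · rintro _ ⟨x, hx, rfl⟩
        obtain ⟨k1, k2, k3, k4⟩ := x.2
        exact ⟨k1, k2, k3, hx⟩
      · rintro x ⟨k1, k2, k3, k4⟩
        refine ⟨⟨x, k1, k2, k3, ?_⟩, k4, rfl⟩
        rw [add_comm, pwR_add, k4]
        exact (Rw w 1).map_zero
    have h3 := LinearMap.finrank_range_add_finrank_ker φ
    have h4 := Submodule.finrank_map_subtype_eq (Kd b w i i' (s + 1)) (LinearMap.ker φ)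
    rw [h1, ← h4, h2, ih] at h3
    rw [← h3]
    ring

end Pool.Agent.PP.CD2.H34
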